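import Mathlib

set_option maxHeartbeats 400000

open Metric

namespace Pool.Agent.Results.MP_122452_an.Yes

variable {X : Type*} [NormedAddCommGroup X] [NormedSpace ℝ X]

/-- `f` is second order Lipschitz on `U`. -/
def SecondLip (U : Set X) (f : X → X) : Prop :=
  ∃ C : ℝ, ∀ t > 0, ∀ x h : X, ‖h‖ ≤ t → segment ℝ (x - h) (x + h) ⊆ U →
    ‖f (x + h) - (2 : ℝ) • f x + f (x - h)‖ ≤ C * t ^ 2

/-- `f` is Lipschitz-open on `U`. -/
def LipOpen (U : Set X) (f : X → X) : Prop :=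
  ∃ c > (0 : ℝ), ∀ x ∈ U, ∀ ε > (0 : ℝ), ball x ε ⊆ U → ball (f x) (c * ε) ⊆ f '' ball x ε

/-- `f` is locally convex on `U`. -/
def LocConvex (U : Set X) (f : X → X) : Prop :=
  ∃ c > (0 : ℝ), ∀ ε : ℝ, 0 < ε → ε ≤ c → ∀ x ∈ U, ball x ε ⊆ U → Convex ℝ (f '' ball x ε)

/-- `X` is admissible. -/
def Admissible (X : Type*) [NormedAddCommGroup X] [NormedSpace ℝ X] : Prop :=
  ∀ (U : Set X) (f : X → X), IsOpen U → LipOpen U f → SecondLip U f → LocConvex U f

/-- `X` has modulus of convexity of power type 2. -/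
def PowerType2 (X : Type*) [NormedAddCommGroup X] [NormedSpace ℝ X] : Prop :=
  ∃ L > (0 : ℝ), ∀ t : ℝ, 0 ≤ t → t ≤ 2 → ∀ x y : X, ‖x‖ = 1 → ‖y‖ = 1 → t ≤ ‖x - y‖ →
    L * t ^ 2 ≤ 1 - ‖(1 / 2 : ℝ) • (x + y)‖

theorem local_bad (hX : ¬ PowerType2 X) {η : ℝ} (hη : 0 < η) (hη1 : η ≤ 1) :
    ∃ (φ : X →L[ℝ] ℝ) (v : X) (ε : ℝ), (∀ w, |φ w| ≤ ‖w‖) ∧ ‖v‖ = 1 ∧ φ v = 0 ∧ 0 < ε ∧ ε ≤ η ∧
      ∀ z : X, ¬ Convex ℝ ((fun w => w + (φ (w - z)) ^ 2 • v) '' ball z ε) := by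
  unfold PowerType2 at hX
  push Not at hX
  set ρ := η / 2 with hρ
  have hρ0 : 0 < ρ := by positivity
  have hρ1 : ρ ≤ 1 / 2 := by linarith
  obtain ⟨t, ht0, -, x, y, hx, hy, hxy, hL⟩ := hX (ρ / 64) (by positivity)
  set m : X := (1 / 2 : ℝ) • (x + y) with hm
  set h : X := (1 / 2 : ℝ) • (x - y) with hh
  have hxm : x = m + h := by rw [hm, hh]; module
  have hym : y = m - h := by rw [hm, hh]; module
  have hnh : ‖x - y‖ = 2 * ‖h‖ := by
    rw [hh, norm_smul]; norm_num; ring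
  have hh1 : ‖h‖ ≤ 1 := by
    have := norm_sub_le x y
    linarith
  have hh0 : 0 ≤ ‖h‖ := norm_nonneg _
  have hL2 : 1 - ‖m‖ < ρ / 16 * ‖h‖ ^ 2 := by
    have h1 : t ^ 2 ≤ (2 * ‖h‖) ^ 2 := pow_le_pow_left₀ ht0 (by linarith) 2
    nlinarith
  have hm1 : ‖m‖ ≤ 1 := by
    rw [hm, norm_smul]
    have := norm_add_le x y
    norm_num
    linarith
  have hsq : ‖h‖ ^ 2 ≤ ‖h‖ := by nlinarith
  have hsm : ρ / 16 * ‖h‖ ^ 2 ≤ ‖h‖ / 2 := by nlinarith
  have hm0 : 0 < ‖m‖ := by linarith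
  obtain ⟨a, ha1, ha2⟩ := exists_dual_vector'' ℝ h
  obtain ⟨b, hb1, hb2⟩ := exists_dual_vector'' ℝ m
  have ha : ∀ w, |a w| ≤ ‖w‖ := fun w =>
    (a.le_opNorm w).trans (mul_le_of_le_one_left (norm_nonneg _) ha1)
  have hb : ∀ w, |b w| ≤ ‖w‖ := fun w =>
    (b.le_opNorm w).trans (mul_le_of_le_one_left (norm_nonneg _) hb1)
  have ha2' : a h = ‖h‖ := ha2
  have hb2' : b m = ‖m‖ := hb2
  set κ := a m / ‖m‖ with hκ
  have hκ1 : |κ| ≤ 1 := by
    rw [hκ, abs_div, abs_norm, div_le_one hm0]; exact ha m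
  let φ : X →L[ℝ] ℝ := (1 / 2 : ℝ) • (a - κ • b)
  have hφ : ∀ w, φ w = (1 / 2) * (a w - κ * b w) := fun w => rfl
  have hkb : ∀ w, |κ * b w| ≤ |b w| := fun w => by
    rw [abs_mul]; exact mul_le_of_le_one_left (abs_nonneg _) hκ1
  have hφ1 : ∀ w, |φ w| ≤ ‖w‖ := by
    intro w
    rw [hφ]
    have h1 := abs_le.1 (ha w)
    have h2 := abs_le.1 ((hkb w).trans (hb w))
    rw [abs_le]; constructor <;> linarith
  have hφm : φ m = 0 := by
    rw [hφ, hb2', hκ, div_mul_cancel₀ _ hm0.ne', sub_self, mul_zero]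
  have hbh : |b h| ≤ 1 - ‖m‖ := by
    have h1 := (abs_le.1 (hb x)).2
    have h2 := (abs_le.1 (hb y)).2
    rw [hx] at h1
    rw [hy] at h2
    rw [hxm, map_add, hb2'] at h1
    rw [hym, map_sub, hb2'] at h2
    rw [abs_le]; constructor <;> linarith
  have hφh : ‖h‖ / 4 ≤ φ h := by
    rw [hφ, ha2']
    have h2 := abs_le.1 ((hkb h).trans hbh)
    linarith
  have hφh2 : (‖h‖ / 4) ^ 2 ≤ φ h ^ 2 := pow_le_pow_left₀ (by positivity) hφh 2
  have hφh3 : φ h ^ 2 ≤ 1 := by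
    have := abs_le.1 ((hφ1 h).trans hh1)
    nlinarith
  set v : X := ‖m‖⁻¹ • m with hv
  have hv1 : ‖v‖ = 1 := by rw [hv, norm_smul, norm_inv, norm_norm, inv_mul_cancel₀ hm0.ne']
  have hφv : φ v = 0 := by rw [hv, map_smul, hφm, smul_zero]
  have hmv : m = ‖m‖ • v := by rw [hv, smul_smul, mul_inv_cancel₀ hm0.ne', one_smul]
  have hε : ρ < ρ * ‖m‖ + ρ ^ 2 * φ h ^ 2 := by
    have h1 : 1 - ‖m‖ < ρ * φ h ^ 2 := by nlinarith
    nlinarith
  refine ⟨φ, v, ρ * ‖m‖ + ρ ^ 2 * φ h ^ 2, hφ1, hv1, hφv, by linarith, by nlinarith,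
    fun z hc => ?_⟩
  have hp : ∀ u : X, ‖u‖ = 1 → z + ρ • u ∈ ball z (ρ * ‖m‖ + ρ ^ 2 * φ h ^ 2) := by
    intro u hu
    rw [mem_ball, dist_eq_norm, add_sub_cancel_left, norm_smul, hu, Real.norm_eq_abs,
      abs_of_pos hρ0, mul_one]
    exact hε
  obtain ⟨w, hw, hw2⟩ := hc ⟨_, hp x hx, rfl⟩ ⟨_, hp y hy, rfl⟩
    (show (0 : ℝ) ≤ 1 / 2 by norm_num) (show (0 : ℝ) ≤ 1 / 2 by norm_num) (by norm_num)
  simp only [add_sub_cancel_left, map_smul, smul_eq_mul] at hw2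
  have hφx : φ x = φ h := by rw [hxm, map_add, hφm, zero_add]
  have hφy : φ y = -φ h := by rw [hym, map_sub, hφm, zero_sub]
  rw [hφx, hφy] at hw2
  have hw3 : w - z + φ (w - z) ^ 2 • v = (ρ * ‖m‖ + ρ ^ 2 * φ h ^ 2) • v := by
    have e1 : w - z + φ (w - z) ^ 2 • v = (w + φ (w - z) ^ 2 • v) - z := by abel
    have e2 : (ρ * ‖m‖ + ρ ^ 2 * φ h ^ 2) • v = ρ • (‖m‖ • v) + (ρ ^ 2 * φ h ^ 2) • v := by module
    rw [e1, hw2, e2, ← hmv, hm]
    module
  have hw4 : φ (w - z) = 0 := by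
    have := congrArg φ hw3
    simpa only [map_add, map_smul, hφv, smul_zero, add_zero] using this
  rw [hw4] at hw3
  simp only [ne_eq, OfNat.ofNat_ne_zero, not_false_eq_true, zero_pow, zero_smul, add_zero] at hw3
  rw [mem_ball, dist_eq_norm, hw3, norm_smul, hv1, mul_one, Real.norm_eq_abs,
    abs_of_pos (by linarith)] at hw
  exact lt_irrefl _ hw

theorem result (X : Type*) [NormedAddCommGroup X] [NormedSpace ℝ X] [CompleteSpace X]
    (hA : Admissible X) : PowerType2 X := by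
  by_contra hX
  choose φ v ε hφ hv hφv hε0 hε1 hnc using fun n : ℕ =>
    local_bad hX (η := 1 / ((n : ℝ) + 1)) (by positivity)
      (by rw [div_le_one (by positivity)]; linarith [(Nat.cast_nonneg n : (0 : ℝ) ≤ n)])
  let z : ℕ → X := fun n => (3 * (n : ℝ)) • v 0
  have hdisj : ∀ i j w, w ∈ ball (z i) 1 → w ∈ ball (z j) 1 → i = j := by
    intro i j w hi hj
    have h1 := dist_triangle_left (z i) (z j) w
    rw [mem_ball] at hi hj
    have h2 : dist (z i) (z j) = |3 * (i : ℝ) - 3 * j| := by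
      rw [dist_eq_norm, ← sub_smul, norm_smul, hv 0, mul_one, Real.norm_eq_abs]
    have h3 := abs_lt.1 (show |3 * (i : ℝ) - 3 * j| < 2 by linarith)
    have h4 : (i : ℝ) < j + 1 := by linarith
    have h5 : (j : ℝ) < i + 1 := by linarith
    have h6 : i < j + 1 := by exact_mod_cast h4
    have h7 : j < i + 1 := by exact_mod_cast h5
    omega
  have hN : ∀ w : X, ∃ n : ℕ, ∀ k, w ∈ ball (z k) 1 → n = k := by
    intro w
    by_cases hw : ∃ k, w ∈ ball (z k) 1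
    · obtain ⟨k, hk⟩ := hw
      exact ⟨k, fun j hj => hdisj _ _ w hk hj⟩
    · exact ⟨0, fun k hk => absurd ⟨k, hk⟩ hw⟩
  choose N hN using hN
  let U : Set X := ⋃ n, ball (z n) 1
  let f : X → X := fun w => w + (φ (N w) (w - z (N w))) ^ 2 • v (N w)
  have hf : ∀ n, ∀ w ∈ ball (z n) 1, f w = w + (φ n (w - z n)) ^ 2 • v n := by
    intro n w hw
    simp only [f, hN w n hw]
  have hconn : ∀ (s : Set X) (n : ℕ), IsPreconnected s → s ⊆ U → (s ∩ ball (z n) 1).Nonempty →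
      s ⊆ ball (z n) 1 := by
    intro s n hs hsU hne
    refine hs.subset_left_of_subset_union (v := ⋃ k ∈ {k | k ≠ n}, ball (z k) 1) isOpen_ball
      (isOpen_biUnion fun _ _ => isOpen_ball) ?_ ?_ hne
    · rw [Set.disjoint_left]
      intro w hw hw2
      obtain ⟨k, hk, hk2⟩ := Set.mem_iUnion₂.1 hw2
      exact hk (hdisj _ _ w hk2 hw)
    · intro w hw
      obtain ⟨k, hk⟩ := Set.mem_iUnion.1 (hsU hw)
      by_cases hkn : k = n
      · left; rwa [← hkn]
      · right; exact Set.mem_iUnion₂.2 ⟨k, hkn, hk⟩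
  obtain ⟨c, hc, hconv⟩ := hA U f (isOpen_iUnion fun _ => isOpen_ball) (by
    refine ⟨1 / 4, by norm_num, fun x hx r hr hsub y hy => ?_⟩
    obtain ⟨n, hn⟩ := Set.mem_iUnion.1 hx
    have hB := hconn _ n (convex_ball x r).isPreconnected hsub ⟨x, mem_ball_self hr, hn⟩
    have hr2 : r ≤ 2 := by
      by_contra hlt
      push Not at hlt
      have h1 : x + (2 : ℝ) • v 0 ∈ ball x r := by
        rw [mem_ball, dist_eq_norm, add_sub_cancel_left, norm_smul, hv 0]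
        simpa using hlt
      have h2 := hB h1
      have h3 := dist_triangle_right (x + (2 : ℝ) • v 0) x (z n)
      rw [dist_eq_norm _ x, add_sub_cancel_left, norm_smul, hv 0] at h3
      rw [mem_ball] at h2 hn
      norm_num at h3
      linarith
    rw [hf n x hn, mem_ball, dist_eq_norm] at hy
    set d := y - (x + φ n (x - z n) ^ 2 • v n) with hd
    have hφd : φ n (y - z n) = φ n (x - z n) + φ n d := by
      have : y - z n = (x - z n) + d + φ n (x - z n) ^ 2 • v n := by rw [hd]; abel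
      rw [this, map_add, map_add, map_smul, hφv, smul_zero, add_zero]
    have hw : y - φ n (y - z n) ^ 2 • v n ∈ ball x r := by
      rw [mem_ball, dist_eq_norm]
      have e : y - φ n (y - z n) ^ 2 • v n - x =
          d - (φ n d * (2 * φ n (x - z n) + φ n d)) • v n := by
        rw [hφd, hd]; module
      rw [e]
      refine lt_of_le_of_lt (norm_sub_le _ _) ?_
      rw [norm_smul, hv n, mul_one, Real.norm_eq_abs, abs_mul]
      have h1 := hφ n d
      have h2 := hφ n (x - z n)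
      rw [mem_ball, dist_eq_norm] at hn
      have h3 : |2 * φ n (x - z n) + φ n d| ≤ 5 / 2 := by
        have a1 := abs_le.1 h1
        have a2 := abs_le.1 h2
        rw [abs_le]; constructor <;> linarith
      have h4 := mul_le_mul h1 h3 (abs_nonneg _) (norm_nonneg _)
      linarith
    refine ⟨_, hw, ?_⟩
    rw [hf n _ (hB hw)]
    have : φ n (y - φ n (y - z n) ^ 2 • v n - z n) = φ n (y - z n) := by
      rw [sub_right_comm, map_sub (φ n) (y - z n), map_smul, hφv, smul_zero, sub_zero]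
    rw [this, sub_add_cancel]) (by
    refine ⟨2, fun t ht x h hh hseg => ?_⟩
    have hxs : x ∈ segment ℝ (x - h) (x + h) :=
      ⟨1 / 2, 1 / 2, by norm_num, by norm_num, by norm_num, by module⟩
    obtain ⟨n, hn⟩ := Set.mem_iUnion.1 (hseg hxs)
    have hB := hconn _ n (convex_segment _ _).isPreconnected hseg ⟨x, hxs, hn⟩
    rw [hf n x hn, hf n _ (hB (left_mem_segment ℝ _ _)), hf n _ (hB (right_mem_segment ℝ _ _))]
    have e1 : φ n (x + h - z n) = φ n (x - z n) + φ n h := by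
      rw [add_sub_right_comm, map_add]
    have e2 : φ n (x - h - z n) = φ n (x - z n) - φ n h := by
      rw [sub_right_comm, map_sub (φ n) (x - z n)]
    have e3 : x + h + φ n (x + h - z n) ^ 2 • v n - (2 : ℝ) • (x + φ n (x - z n) ^ 2 • v n) +
        (x - h + φ n (x - h - z n) ^ 2 • v n) = (2 * φ n h ^ 2) • v n := by
      rw [e1, e2]; module
    rw [e3, norm_smul, hv n, mul_one, Real.norm_eq_abs, abs_of_nonneg (by positivity),
      ← sq_abs]
    have := pow_le_pow_left₀ (abs_nonneg _) ((hφ n h).trans hh) 2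
    linarith)
  obtain ⟨n, hn⟩ := exists_nat_one_div_lt hc
  have h1 : ε n ≤ 1 := (hε1 n).trans
    (by rw [div_le_one (by positivity)]; linarith [(Nat.cast_nonneg n : (0 : ℝ) ≤ n)])
  have hsub : ball (z n) (ε n) ⊆ ball (z n) 1 := ball_subset_ball h1
  have hU : ball (z n) 1 ⊆ U := Set.subset_iUnion (fun n => ball (z n) 1) n
  have h2 := hconv (ε n) (hε0 n) ((hε1 n).trans hn.le) (z n) (hU (mem_ball_self one_pos))
    (hsub.trans hU)
  rw [Set.image_congr fun w hw => hf n w (hsub hw)] at h2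
  exact hnc n (z n) h2

end Pool.Agent.Results.MP_122452_an.Yes
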